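import Pool.Agent.N180.UD.Defs

/-!
# The lifting problem contains the word problem

For every finite presentation `P` (labels zero) and every word `w`, the class of the labels of the
presentation `⟨P, s, t | [t, [w, s]]⟩`, with the label `1` on the new relator only, lifts to the
second cohomology group of the group if and only if `w` is not trivial in the group of `P`.

If `w ≠ 1` in `G`, let `f : G → ℤ` be injective and let the following permutations act on
`G × ℤ × ℤ/2`: `G` by left multiplication, `s (g, k, ε) = (g, k + f g, ε)`,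
`c (g, k, ε) = (g, k, ε + 1)` and `t (g, k, ε) = (g, k, ε + ⌊k / d g⌋)`, `d g = f (w⁻¹ g) - f g ≠ 0`.
Then `v = [w, s]` is `(g, k, ε) ↦ (g, k + d g, ε)`, so `t v t⁻¹ = v c`.
-/

set_option autoImplicit false

namespace Pool.Agent.N212.UD

open Pool.Agent.N180.UD

/-! ### Values of words -/

section Val

variable {E : Type*} [Group E]

/-- The value of a word at elements of a group. -/
def ev (e : ℕ → E) (w : Wd) : E := FreeGroup.lift e (wd w)

lemma ev_nil (e : ℕ → E) : ev e [] = 1 := by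
  simp [ev, wd]

lemma ev_append (e : ℕ → E) (a b : Wd) : ev e (a ++ b) = ev e a * ev e b := by
  rw [ev, wd, ← FreeGroup.mul_mk, map_mul]; rfl

lemma ev_cons (e : ℕ → E) (j : ℕ) (b : Bool) (a : Wd) :
    ev e ((j, b) :: a) = (if b then e j else (e j)⁻¹) * ev e a := by
  rw [show ((j, b) :: a : Wd) = [(j, b)] ++ a from rfl, ev_append]
  congr 1
  simp only [ev, wd, FreeGroup.lift_mk, List.map_cons, List.map_nil, List.prod_cons, List.prod_nil,
    mul_one]
  cases b <;> simp

lemma ev_winv (e : ℕ → E) (a : Wd) : ev e (winv a) = (ev e a)⁻¹ := by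
  have : wd (winv a) = (wd a)⁻¹ := by
    rw [wd, wd, FreeGroup.inv_mk]
    rfl
  rw [ev, this, map_inv]; rfl

lemma ev_comm (e : ℕ → E) (a b : Wd) :
    ev e (Pool.Agent.N180.UD.comm a b) = ev e a * ev e b * (ev e a)⁻¹ * (ev e b)⁻¹ := by
  rw [Pool.Agent.N180.UD.comm, ev_append, ev_append, ev_append, ev_winv, ev_winv]
  simp only [mul_assoc]

lemma ev_single (e : ℕ → E) (j : ℕ) : ev e [(j, true)] = e j := by
  rw [ev_cons, ev_nil]; simp

/-- The value of the cleaned word. -/
lemma ev_clean (e e' : ℕ → E) (n : ℕ) (h : ∀ j, j < n → e j = e' j) (h' : ∀ j, n ≤ j → e' j = 1)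
    (w : Wd) : ev e (clean n w) = ev e' w := by
  induction w with
  | nil => simp [clean, ev_nil]
  | cons p a ih =>
    obtain ⟨j, b⟩ := p
    by_cases hj : j < n
    · have : clean n ((j, b) :: a) = (j, b) :: clean n a := by
        simp [clean, hj]
      rw [this, ev_cons, ev_cons, ih, h j hj]
    · have : clean n ((j, b) :: a) = clean n a := by
        simp [clean, hj]
      rw [this, ev_cons, ih, h' j (not_lt.1 hj)]
      cases b <;> simp

/-- Elements which satisfy the relators give a homomorphism. -/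
lemma ev_eq_one (P : Pres) (e : ℕ → E) (h : ∀ r ∈ P.2, ev e r.1 = 1)
    (h' : ∀ j, P.1 ≤ j → e j = 1) (w : Wd) (hw : val P w = 1) : ev e w = 1 := by
  have h1 : ∀ r ∈ relSet P, FreeGroup.lift e r = 1 := by
    rintro r (⟨q, hq, rfl⟩ | ⟨k, hk, rfl⟩)
    · exact h q hq
    · rw [FreeGroup.lift_apply_of]; exact h' k hk
  have h2 : PresentedGroup.toGroup h1 (val P w) = ev e w := rfl
  rw [← h2, hw, map_one]

/-- The value in the presented group. -/
lemma val_eq (P : Pres) (w : Wd) : val P w = ev (fun k => (PresentedGroup.of k : Grp P)) w := by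
  have : (FreeGroup.lift fun k => (PresentedGroup.of k : Grp P)) = PresentedGroup.mk (relSet P) := by
    apply FreeGroup.ext_hom
    intro k
    rw [FreeGroup.lift_apply_of]
    rfl
  rw [ev, this]
  rfl

lemma of_eq_one (P : Pres) (k : ℕ) (hk : P.1 ≤ k) : (PresentedGroup.of k : Grp P) = 1 :=
  PresentedGroup.one_of_mem (rels := relSet P) (Or.inr ⟨k, hk, rfl⟩)

lemma val_rel (P : Pres) (r : Wd × Bool) (hr : r ∈ P.2) : val P r.1 = 1 :=
  PresentedGroup.one_of_mem (rels := relSet P) (Or.inl ⟨r, hr, rfl⟩)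

end Val

/-! ### The permutations -/

/-- The permutation `(g, k, ε) ↦ (γ g, k, ε)`. -/
def gam {Γ : Type} [Group Γ] (γ : Γ) : Equiv.Perm (Γ × ℤ × ZMod 2) where
  toFun p := (γ * p.1, p.2)
  invFun p := (γ⁻¹ * p.1, p.2)
  left_inv p := by simp
  right_inv p := by simp

/-- The permutation `(g, k, ε) ↦ (g, k + f g, ε)`. -/
def sh {Γ : Type} (f : Γ → ℤ) : Equiv.Perm (Γ × ℤ × ZMod 2) where
  toFun p := (p.1, p.2.1 + f p.1, p.2.2)
  invFun p := (p.1, p.2.1 - f p.1, p.2.2)
  left_inv p := by simp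
  right_inv p := by simp

/-- The permutation `(g, k, ε) ↦ (g, k, ε + ⌊k / d g⌋)`. -/
def tt {Γ : Type} (d : Γ → ℤ) : Equiv.Perm (Γ × ℤ × ZMod 2) where
  toFun p := (p.1, p.2.1, p.2.2 + ((p.2.1 / d p.1 : ℤ) : ZMod 2))
  invFun p := (p.1, p.2.1, p.2.2 - ((p.2.1 / d p.1 : ℤ) : ZMod 2))
  left_inv p := by simp
  right_inv p := by simp

/-- The permutation `(g, k, ε) ↦ (g, k, ε + 1)`. -/
def cc (Γ : Type) : Equiv.Perm (Γ × ℤ × ZMod 2) where
  toFun p := (p.1, p.2.1, p.2.2 + 1)
  invFun p := (p.1, p.2.1, p.2.2 - 1)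
  left_inv p := by simp
  right_inv p := by simp

/-- Left multiplications, as a homomorphism. -/
def gamHom (Γ : Type) [Group Γ] : Γ →* Equiv.Perm (Γ × ℤ × ZMod 2) where
  toFun := gam
  map_one' := by
    apply Equiv.ext
    intro p
    simp [gam]
  map_mul' a b := by
    apply Equiv.ext
    intro p
    simp [gam, mul_assoc]

lemma commutator_apply {Γ : Type} [Group Γ] (f : Γ → ℤ) (ω : Γ) (q : Γ × ℤ × ZMod 2) :
    (gamHom Γ ω * sh f * (gamHom Γ ω)⁻¹ * (sh f)⁻¹) q =
      (q.1, q.2.1 + (f (ω⁻¹ * q.1) - f q.1), q.2.2) := by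
  obtain ⟨g, k, ε⟩ := q
  have i1 : (sh f)⁻¹ (g, k, ε) = (g, k - f g, ε) := rfl
  have i2 : (gamHom Γ ω)⁻¹ (g, k - f g, ε) = (ω⁻¹ * g, k - f g, ε) := rfl
  have i3 : sh f (ω⁻¹ * g, k - f g, ε) = (ω⁻¹ * g, k - f g + f (ω⁻¹ * g), ε) := rfl
  have i4 : gamHom Γ ω (ω⁻¹ * g, k - f g + f (ω⁻¹ * g), ε) =
    (ω * (ω⁻¹ * g), k - f g + f (ω⁻¹ * g), ε) := rfl
  rw [Equiv.Perm.mul_apply, Equiv.Perm.mul_apply, Equiv.Perm.mul_apply, i1, i2, i3, i4]
  simp only [mul_inv_cancel_left]
  congr 2
  ring

lemma tt_relation {Γ : Type} [Group Γ] (f : Γ → ℤ) (ω : Γ)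
    (hd : ∀ g, f (ω⁻¹ * g) - f g ≠ 0) :
    tt (fun g => f (ω⁻¹ * g) - f g) * (gamHom Γ ω * sh f * (gamHom Γ ω)⁻¹ * (sh f)⁻¹) *
        (tt fun g => f (ω⁻¹ * g) - f g)⁻¹ *
      (gamHom Γ ω * sh f * (gamHom Γ ω)⁻¹ * (sh f)⁻¹)⁻¹ = cc Γ := by
  rw [mul_inv_eq_iff_eq_mul, mul_inv_eq_iff_eq_mul]
  apply Equiv.ext
  rintro ⟨g, k, ε⟩
  rw [Equiv.Perm.mul_apply, commutator_apply, Equiv.Perm.mul_apply, Equiv.Perm.mul_apply,
    commutator_apply]
  have hk : (k + (f (ω⁻¹ * g) - f g)) / (f (ω⁻¹ * g) - f g) = k / (f (ω⁻¹ * g) - f g) + 1 := by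
    rw [Int.add_ediv_of_dvd_right (dvd_refl _), Int.ediv_self (hd g)]
  have h1 : tt (fun g => f (ω⁻¹ * g) - f g) (g, k + (f (ω⁻¹ * g) - f g), ε) =
      (g, k + (f (ω⁻¹ * g) - f g),
        ε + (((k + (f (ω⁻¹ * g) - f g)) / (f (ω⁻¹ * g) - f g) : ℤ) : ZMod 2)) := rfl
  have h2 : tt (fun g => f (ω⁻¹ * g) - f g) (g, k, ε) =
      (g, k, ε + ((k / (f (ω⁻¹ * g) - f g) : ℤ) : ZMod 2)) := rfl
  rw [h1, h2, hk]
  simp only [cc, Equiv.coe_fn_mk, Prod.mk.injEq, true_and]
  push_cast
  ring

/-! ### The theorem -/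

instance countable_grp (P : Pres) : Countable (Grp P) := by
  have h1 : Countable (FreeGroup ℕ) :=
    Function.Surjective.countable (f := fun l : List (ℕ × Bool) => FreeGroup.mk l)
      (fun x => ⟨x.toWord, FreeGroup.mk_toWord⟩)
  exact Function.Surjective.countable (f := PresentedGroup.mk (relSet P))
    (QuotientGroup.mk'_surjective _)

lemma lifts_of_ne (P : Pres) (hlab : ∀ r ∈ P.2, r.2 = false) (w : Wd) (hw : val P w ≠ 1) :
    Lifts (ext P w) := by
  classical
  obtain ⟨f0, hf0⟩ := exists_injective_nat (Grp P)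
  let f : Grp P → ℤ := fun g => (f0 g : ℤ)
  have hf : Function.Injective f := fun a b h => hf0 (by
    have h' : (f0 a : ℤ) = (f0 b : ℤ) := h
    exact_mod_cast h')
  set ω : Grp P := val P w with hω
  have hd : ∀ g, f (ω⁻¹ * g) - f g ≠ 0 := by
    intro g h
    have h2 := hf (sub_eq_zero.1 h)
    have h3 : ω⁻¹ = 1 := by simpa using h2
    exact hw (inv_eq_one.1 h3)
  -- the elements
  let d : Grp P → ℤ := fun g => f (ω⁻¹ * g) - f g
  let e0 : ℕ → Equiv.Perm (Grp P × ℤ × ZMod 2) := fun j =>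
    gamHom (Grp P) (PresentedGroup.of j)
  have he0 : ∀ u : Wd, ev e0 u = gamHom (Grp P) (val P u) := by
    intro u
    have h1 : FreeGroup.lift e0 = (gamHom (Grp P)).comp (PresentedGroup.mk (relSet P)) := by
      apply FreeGroup.ext_hom
      intro j
      rw [FreeGroup.lift_apply_of]
      rfl
    rw [ev, h1]; rfl
  let e : ℕ → Equiv.Perm (Grp P × ℤ × ZMod 2) := fun j =>
    if j < P.1 then e0 j else if j = P.1 then sh f else if j = P.1 + 1 then tt d else 1
  have e1 : ∀ j, j < P.1 → e j = e0 j := fun j hj => if_pos hj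
  have e2 : e P.1 = sh f := by
    change (if P.1 < P.1 then e0 P.1 else if P.1 = P.1 then sh f else _) = _
    rw [if_neg (lt_irrefl _), if_pos rfl]
  have e3 : e (P.1 + 1) = tt d := by
    change (if P.1 + 1 < P.1 then e0 (P.1 + 1) else if P.1 + 1 = P.1 then sh f else
      if P.1 + 1 = P.1 + 1 then tt d else 1) = _
    rw [if_neg (by omega), if_neg (by omega), if_pos rfl]
  have e4 : ∀ j, P.1 + 2 ≤ j → e j = 1 := fun j hj => by
    change (if j < P.1 then e0 j else if j = P.1 then sh f else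
      if j = P.1 + 1 then tt d else 1) = _
    rw [if_neg (by omega), if_neg (by omega), if_neg (by omega)]
  have hcl : ∀ u : Wd, ev e (clean P.1 u) = gamHom (Grp P) (val P u) := by
    intro u
    rw [ev_clean e e0 P.1 e1 (fun j hj => by
      change gamHom (Grp P) (PresentedGroup.of j) = 1
      rw [of_eq_one P j hj, map_one]) u, he0 u]
  have hc2 : cc (Grp P) * cc (Grp P) = 1 := by
    apply Equiv.ext
    rintro ⟨g, k, ε⟩
    have : ε + 1 + 1 = ε := by
      rw [add_assoc, show (1 : ZMod 2) + 1 = 0 by decide, add_zero]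
    simp [cc, this]
  have hcom : ∀ j, cc (Grp P) * e j = e j * cc (Grp P) := by
    intro j
    by_cases h1 : j < P.1
    · rw [e1 j h1]
      apply Equiv.ext
      rintro ⟨g, k, ε⟩
      rfl
    · by_cases h2 : j = P.1
      · rw [h2, e2]
        apply Equiv.ext
        rintro ⟨g, k, ε⟩
        rfl
      · by_cases h3 : j = P.1 + 1
        · rw [h3, e3]
          apply Equiv.ext
          rintro ⟨g, k, ε⟩
          simp only [Equiv.Perm.mul_apply, cc, tt, Equiv.coe_fn_mk, Prod.mk.injEq, true_and]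
          ring
        · rw [e4 j (by omega), mul_one, one_mul]
  -- the group
  let C : Subgroup (Equiv.Perm (Grp P × ℤ × ZMod 2)) := Subgroup.centralizer {cc (Grp P)}
  have hCe : ∀ j, e j ∈ C := fun j => by
    rw [Subgroup.mem_centralizer_singleton_iff]
    exact (hcom j).symm
  have hCc : cc (Grp P) ∈ C := by
    rw [Subgroup.mem_centralizer_singleton_iff]
  let ec : ℕ → C := fun j => ⟨e j, hCe j⟩
  have hec : ∀ u : Wd, ((ev ec u : C) : Equiv.Perm (Grp P × ℤ × ZMod 2)) = ev e u := by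
    intro u
    have h1 : C.subtype.comp (FreeGroup.lift ec) = FreeGroup.lift e := by
      apply FreeGroup.ext_hom
      intro j
      rw [MonoidHom.comp_apply, FreeGroup.lift_apply_of, FreeGroup.lift_apply_of]
      rfl
    rw [ev, ev, ← h1]; rfl
  refine ⟨C, inferInstance, ⟨cc (Grp P), hCc⟩, ?_, ?_, ?_, ec, ?_, ?_⟩
  · intro h
    have h1 : cc (Grp P) = 1 := congrArg Subtype.val h
    have h2 := congrArg (fun σ : Equiv.Perm (Grp P × ℤ × ZMod 2) =>
      (σ ((1 : Grp P), (0 : ℤ), (0 : ZMod 2))).2.2) h1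
    simp [cc] at h2
  · exact Subtype.ext hc2
  · rintro ⟨x, hx⟩
    apply Subtype.ext
    have := Subgroup.mem_centralizer_singleton_iff.1 hx
    exact this.symm
  · intro k hk
    exact Subtype.ext (e4 k hk)
  · intro r hr
    change ev ec r.1 = _
    apply Subtype.ext
    rw [hec]
    unfold ext ext0 at hr
    rcases List.mem_append.1 hr with hr | hr
    · obtain ⟨q, hq, rfl⟩ := List.mem_map.1 hr
      simp only [hlab q hq]
      rw [hcl, val_rel P q hq, map_one]
      rfl
    · obtain rfl := List.mem_singleton.1 hr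
      simp only [if_true]
      rw [newRel, ev_comm, ev_comm, ev_single, ev_single, e2, e3, hcl w]
      exact tt_relation f ω hd

lemma ne_of_lifts (P : Pres) (hlab : ∀ r ∈ P.2, r.2 = false) (w : Wd) (h : Lifts (ext P w)) :
    val P w ≠ 1 := by
  intro hw
  obtain ⟨E, _, c, hc, -, -, e, -, hr⟩ := h
  let e' : ℕ → E := fun j => if j < P.1 then e j else 1
  have h1 : ∀ j, j < P.1 → e j = e' j := fun j hj => (if_pos hj).symm
  have h2 : ∀ j, P.1 ≤ j → e' j = 1 := fun j hj => if_neg (by omega)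
  have h3 : ∀ q ∈ P.2, ev e' q.1 = 1 := by
    intro q hq
    rw [← ev_clean e e' P.1 h1 h2]
    have := hr (clean P.1 q.1, q.2) (by
      unfold ext ext0
      exact List.mem_append_left _ (List.mem_map.2 ⟨q, hq, rfl⟩))
    rw [hlab q hq] at this
    change FreeGroup.lift e (wd (clean P.1 q.1)) = 1
    simpa using this
  have h4 : ev e (clean P.1 w) = 1 := by
    rw [ev_clean e e' P.1 h1 h2]
    exact ev_eq_one P e' h3 h2 w hw
  have h5 : ev e (newRel P w) = c := by
    have := hr (newRel P w, true) (by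
      unfold ext
      exact List.mem_append_right _ (List.mem_singleton.2 rfl))
    change FreeGroup.lift e (wd (newRel P w)) = c
    simpa using this
  rw [newRel, ev_comm, ev_comm, h4] at h5
  simp at h5
  exact hc h5.symm

/-- **The lifting problem contains the word problem.** -/
theorem lifts_ext_iff (P : Pres) (hlab : ∀ r ∈ P.2, r.2 = false) (w : Wd) :
    Lifts (ext P w) ↔ val P w ≠ 1 :=
  ⟨ne_of_lifts P hlab w, lifts_of_ne P hlab w⟩

/-- If `w` is trivial then the new relator is trivial. -/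
theorem val_newRel (P : Pres) (w : Wd) (h : val P w = 1) : val (ext0 P) (newRel P w) = 1 := by
  rw [val_eq]
  set e : ℕ → Grp (ext0 P) := fun k => PresentedGroup.of k with he
  let e' : ℕ → Grp (ext0 P) := fun j => if j < P.1 then e j else 1
  have h1 : ∀ j, j < P.1 → e j = e' j := fun j hj => (if_pos hj).symm
  have h2 : ∀ j, P.1 ≤ j → e' j = 1 := fun j hj => if_neg (by omega)
  have h3 : ∀ q ∈ P.2, ev e' q.1 = 1 := by
    intro q hq
    rw [← ev_clean e e' P.1 h1 h2]
    have := val_rel (ext0 P) (clean P.1 q.1, q.2) (by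
      unfold ext0
      exact List.mem_map.2 ⟨q, hq, rfl⟩)
    rw [val_eq] at this
    exact this
  have h4 : ev e (clean P.1 w) = 1 := by
    rw [ev_clean e e' P.1 h1 h2]
    exact ev_eq_one P e' h3 h2 w h
  rw [newRel, ev_comm, ev_comm, h4]
  simp

/-! ### Computability -/

theorem primrec_clean (n : ℕ) : Primrec (clean n) := by
  have h : PrimrecPred fun l : ℕ × Bool => l.1 < n :=
    PrimrecRel.comp Primrec.nat_lt Primrec.fst (Primrec.const n)
  exact (Primrec.listFilter h).of_eq fun l => by simp [clean]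

theorem primrec_winv : Primrec winv := by
  have h : Primrec fun w : Wd => w.map fun l => (l.1, !l.2) :=
    Primrec.list_map Primrec.id
      ((Primrec.pair (Primrec.fst.comp Primrec.snd)
        (Primrec.not.comp (Primrec.snd.comp Primrec.snd))).to₂)
  exact Primrec.list_reverse.comp h

theorem primrec_comm : Primrec₂ Pool.Agent.N180.UD.comm := by
  have h1 : Primrec fun p : Wd × Wd => winv p.1 ++ winv p.2 :=
    Primrec.list_append.comp (primrec_winv.comp Primrec.fst) (primrec_winv.comp Primrec.snd)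
  have h2 : Primrec fun p : Wd × Wd => p.2 ++ (winv p.1 ++ winv p.2) :=
    Primrec.list_append.comp Primrec.snd h1
  exact Primrec.list_append.comp Primrec.fst h2

theorem computable_ext (P : Pres) : Computable (ext P) := by
  have h1 : Primrec fun w : Wd => newRel P w :=
    primrec_comm.comp (Primrec.const _) (primrec_comm.comp (primrec_clean P.1) (Primrec.const _))
  have h2 : Primrec fun w : Wd => (ext0 P).2 ++ [(newRel P w, true)] :=
    Primrec.list_append.comp (Primrec.const _)
      (Primrec.list_cons.comp (Primrec.pair h1 (Primrec.const true)) (Primrec.const []))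
  exact (Primrec.pair (Primrec.const (ext0 P).1) h2).to_comp

end Pool.Agent.N212.UD
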