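import Pool.Agent.N180.UD.SphB

/-!
# Hopf: a class which vanishes on the spherical classes comes from the group
-/

set_option autoImplicit false

namespace Pool.Agent.N212.UD

open Pool.Agent.N180.UD Finsupp

noncomputable section

lemma labels_add' (P : Pres) (a b : (Grp P × ℕ) →₀ ℤ) :
    labels P (a + b) = labels P a + labels P b := by
  classical
  unfold labels
  refine Finsupp.sum_add_index' ?_ ?_
  · intro x; split <;> rfl
  · intro x r s; split <;> simp

lemma labels_zero' (P : Pres) : labels P 0 = 0 := by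
  unfold labels
  exact Finsupp.sum_zero_index

lemma labels_neg' (P : Pres) (a : (Grp P × ℕ) →₀ ℤ) : labels P (-a) = -labels P a := by
  have h := labels_add' P a (-a)
  rw [add_neg_cancel, labels_zero'] at h
  exact (neg_eq_of_add_eq_zero_right h.symm).symm

lemma labels_single' (P : Pres) (x : Grp P × ℕ) (a : ℤ) :
    labels P (single x a) = if (P.2.getD x.2 default).2 = true then a else 0 := by
  unfold labels
  rw [Finsupp.sum_single_index]
  split <;> rfl

lemma bdry_zero' (P : Pres) : bdry P 0 = 0 := Finsupp.sum_zero_index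

lemma zmod_neg (a : ZMod 2) : -a = a := by
  revert a; decide

/-- The relations of the extension. -/
def KK (P : Pres) : Subgroup (FreeGroup ℕ × Multiplicative (ZMod 2)) where
  carrier := {p | FreeGroup.lift (gen P) p.1 = 1 ∧ ∀ g : Grp P, ∃ c : (Grp P × ℕ) →₀ ℤ,
    (∀ x ∈ c.support, x.2 < P.2.length) ∧ bdry P c = pathF P.1 (gen P) g p.1 ∧
      ((labels P c : ℤ) : ZMod 2) = Multiplicative.toAdd p.2}
  one_mem' := by
    refine ⟨map_one _, fun g => ⟨0, by simp, ?_, ?_⟩⟩
    · rw [bdry_zero']
      exact (pathF_one P.1 (gen P) g).symm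
    · rw [labels_zero']
      simp
  mul_mem' := by
    classical
    rintro ⟨x, s⟩ ⟨y, t⟩ ⟨hx, hx'⟩ ⟨hy, hy'⟩
    refine ⟨?_, fun g => ?_⟩
    · change FreeGroup.lift (gen P) (x * y) = 1
      change FreeGroup.lift (gen P) x = 1 at hx
      change FreeGroup.lift (gen P) y = 1 at hy
      rw [map_mul, hx, hy, one_mul]
    · obtain ⟨c, hc, hc1, hc2⟩ := hx' g
      obtain ⟨d, hd, hd1, hd2⟩ := hy' g
      refine ⟨c + d, ?_, ?_, ?_⟩
      · intro x hx
        rcases Finset.mem_union.1 (Finsupp.support_add hx) with h | h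
        · exact hc x h
        · exact hd x h
      · change bdry P (c + d) = pathF P.1 (gen P) g (x * y)
        change FreeGroup.lift (gen P) x = 1 at hx
        rw [bdry_add, hc1, hd1, pathF_mul, hx, mul_one]
      · rw [labels_add']
        push_cast
        rw [hc2, hd2]
        rfl
  inv_mem' := by
    rintro ⟨x, s⟩ ⟨hx, hx'⟩
    change FreeGroup.lift (gen P) x = 1 at hx
    refine ⟨?_, fun g => ?_⟩
    · change FreeGroup.lift (gen P) x⁻¹ = 1
      rw [map_inv, hx, inv_one]
    · obtain ⟨c, hc, hc1, hc2⟩ := hx' g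
      refine ⟨-c, ?_, ?_, ?_⟩
      · intro x hx
        rw [Finsupp.support_neg] at hx
        exact hc x hx
      · change bdry P (-c) = pathF P.1 (gen P) g x⁻¹
        rw [bdry_neg, hc1, pathF_inv, hx, inv_one, mul_one]
      · rw [labels_neg']
        push_cast
        rw [hc2]
        rfl

instance KK_normal (P : Pres) : (KK P).Normal := by
  constructor
  rintro ⟨x, s⟩ ⟨hx, hx'⟩ ⟨y, t⟩
  change FreeGroup.lift (gen P) x = 1 at hx
  refine ⟨?_, fun g => ?_⟩
  · change FreeGroup.lift (gen P) (y * x * y⁻¹) = 1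
    rw [map_mul, map_mul, hx, mul_one, map_inv, mul_inv_cancel]
  · obtain ⟨c, hc, hc1, hc2⟩ := hx' (g * FreeGroup.lift (gen P) y)
    refine ⟨c, hc, ?_, ?_⟩
    · change bdry P c = pathF P.1 (gen P) g (y * x * y⁻¹)
      rw [hc1, pathF_mul, pathF_mul, pathF_inv, map_mul, hx, mul_one, mul_inv_cancel_right]
      abel
    · rw [hc2]
      change Multiplicative.toAdd s = Multiplicative.toAdd (t * s * t⁻¹)
      rw [mul_comm t s, mul_inv_cancel_right]

/-- **Hopf.** If the class of the labels vanishes on all spherical classes then it comes from the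
second cohomology group of the group. -/
theorem lifts_of_not_oddSphere (P : Pres) (h : ¬ OddSphere P) : Lifts P := by
  classical
  let E : Type := (FreeGroup ℕ × Multiplicative (ZMod 2)) ⧸ KK P
  let q : FreeGroup ℕ × Multiplicative (ZMod 2) →* E := QuotientGroup.mk' (KK P)
  have hq : ∀ p, q p = 1 ↔ p ∈ KK P := fun p => QuotientGroup.eq_one_iff p
  have hlift : ∀ y : FreeGroup ℕ,
      FreeGroup.lift (fun k => q (FreeGroup.of k, 1)) y = q (y, 1) := by
    intro y
    have h1 : FreeGroup.lift (fun k => q (FreeGroup.of k, 1)) =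
        q.comp (MonoidHom.inl (FreeGroup ℕ) (Multiplicative (ZMod 2))) := by
      apply FreeGroup.ext_hom
      intro k
      rw [FreeGroup.lift_apply_of]
      rfl
    rw [h1]
    rfl
  have htwo : (Multiplicative.ofAdd (1 : ZMod 2)) * Multiplicative.ofAdd (1 : ZMod 2) = 1 := by
    decide
  refine ⟨E, inferInstance, q (1, Multiplicative.ofAdd 1), ?_, ?_, ?_,
    fun k => q (FreeGroup.of k, 1), ?_, ?_⟩
  · intro h1
    obtain ⟨-, h2⟩ := (hq _).1 h1
    obtain ⟨c, hc, hc1, hc2⟩ := h2 1
    apply h
    refine ⟨c, hc, ?_, ?_⟩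
    · rw [hc1]
      exact pathF_one P.1 (gen P) 1
    · have h3 : ((labels P c : ℤ) : ZMod 2) = 1 := hc2
      rw [← Int.not_even_iff_odd]
      intro h4
      have h5 : ((labels P c : ℤ) : ZMod 2) = 0 := (ZMod.intCast_zmod_eq_zero_iff_dvd _ 2).2
        (by exact_mod_cast h4.two_dvd)
      rw [h5] at h3
      exact absurd h3 (by decide)
  · rw [← map_mul]
    have : ((1 : FreeGroup ℕ), Multiplicative.ofAdd (1 : ZMod 2)) * (1, Multiplicative.ofAdd 1) =
        1 := by
      rw [Prod.mk_mul_mk, htwo, mul_one]; rfl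
    rw [this, map_one]
  · intro x
    obtain ⟨⟨y, t⟩, rfl⟩ := QuotientGroup.mk'_surjective (KK P) x
    change q (1, Multiplicative.ofAdd 1) * q (y, t) = q (y, t) * q (1, Multiplicative.ofAdd 1)
    rw [← map_mul, ← map_mul, Prod.mk_mul_mk, Prod.mk_mul_mk, one_mul, mul_one, mul_comm]
  · intro k hk
    refine (hq _).2 ⟨?_, fun g => ⟨0, by simp, ?_, ?_⟩⟩
    · change FreeGroup.lift (gen P) (FreeGroup.of k) = 1
      rw [FreeGroup.lift_apply_of]; exact gen_eq_one P k hk
    · change bdry P 0 = pathF P.1 (gen P) g (FreeGroup.of k)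
      have h1 : FreeGroup.of k = wd [(k, true)] := rfl
      rw [h1, pathF_wd, path, path, edge, if_neg (not_lt.2 hk), add_zero, bdry_zero']
    · rw [labels_zero']
      simp
  · intro r hr
    rw [hlift]
    obtain ⟨i, hi, hir⟩ := List.getElem_of_mem hr
    have hget : P.2.getD i default = r := by
      rw [List.getD_eq_getElem _ _ hi, hir]
    have hmem : (wd r.1, Multiplicative.ofAdd (if r.2 = true then (1 : ZMod 2) else 0)) ∈ KK P := by
      refine ⟨?_, fun g => ⟨single (g, i) 1, ?_, ?_, ?_⟩⟩
      · change FreeGroup.lift (gen P) (wd r.1) = 1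
        rw [lift_gen]
        exact (QuotientGroup.eq_one_iff _).2 (Subgroup.subset_normalClosure (Or.inl ⟨r, hr, rfl⟩))
      · intro x hx
        have := Finsupp.support_single_subset hx
        rw [Finset.mem_singleton] at this
        rw [this]; exact hi
      · change bdry P (single (g, i) 1) = pathF P.1 (gen P) g (wd r.1)
        rw [bdry_single, one_smul, hget, pathF_wd]
      · rw [labels_single', hget]
        change _ = if r.2 = true then (1 : ZMod 2) else 0
        split <;> simp
    cases hr2 : r.2 with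
    | true =>
      rw [hr2] at hmem
      simp only [if_true] at hmem ⊢
      have h1 := (hq _).2 hmem
      have h2 : q (wd r.1, 1) = q (wd r.1, Multiplicative.ofAdd 1) *
          q (1, Multiplicative.ofAdd 1) := by
        rw [← map_mul, Prod.mk_mul_mk, htwo, mul_one]
      rw [h2, h1, one_mul]
    | false =>
      rw [hr2] at hmem
      simp only [Bool.false_eq_true, if_false] at hmem ⊢
      exact (hq _).2 hmem

end

end Pool.Agent.N212.UD
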