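import Pool.Agent.N212.UD.Grp
import Pool.Agent.N180.UD.SphDefs

/-!
# If `w` is trivial then there is a spherical class with odd label
-/

set_option autoImplicit false

namespace Pool.Agent.N212.UD

open Pool.Agent.N180.UD Finsupp

noncomputable section

section Act

variable {G : Type} [Group G] (n : ℕ) (φ : ℕ → G)

/-- The step along the edge with the label `j`, with the accumulated chain. -/
def stepPerm (j : ℕ) : Equiv.Perm (G × ((G × ℕ) →₀ ℤ)) where
  toFun p := (p.1 * φ j, p.2 + edge n p.1 j)
  invFun p := (p.1 * (φ j)⁻¹, p.2 - edge n (p.1 * (φ j)⁻¹) j)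
  left_inv p := by simp
  right_inv p := by simp

/-- The action of the free group. -/
def act : FreeGroup ℕ →* (Equiv.Perm (G × ((G × ℕ) →₀ ℤ)))ᵐᵒᵖ :=
  FreeGroup.lift fun j => MulOpposite.op (stepPerm n φ j)

lemma wd_cons (p : ℕ × Bool) (u : Wd) : wd (p :: u) = wd [p] * wd u := by
  rw [wd, wd, wd, FreeGroup.mul_mk]; rfl

lemma wd_true (j : ℕ) : wd [(j, true)] = FreeGroup.of j := rfl

lemma wd_false (j : ℕ) : wd [(j, false)] = (FreeGroup.of j)⁻¹ := by
  rw [FreeGroup.of, FreeGroup.inv_mk]; rfl

lemma act_mul (x y : FreeGroup ℕ) (p : G × ((G × ℕ) →₀ ℤ)) :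
    (act n φ (x * y)).unop p = (act n φ y).unop ((act n φ x).unop p) := by
  rw [map_mul, MulOpposite.unop_mul, Equiv.Perm.mul_apply]

lemma act_inv (x : FreeGroup ℕ) (p : G × ((G × ℕ) →₀ ℤ)) :
    (act n φ x).unop ((act n φ x⁻¹).unop p) = p := by
  rw [← act_mul, inv_mul_cancel, map_one]; rfl

lemma act_inv' (x : FreeGroup ℕ) (p : G × ((G × ℕ) →₀ ℤ)) :
    (act n φ x⁻¹).unop ((act n φ x).unop p) = p := by
  rw [← act_mul, mul_inv_cancel, map_one]; rfl

lemma act_wd (u : Wd) : ∀ (g : G) (a : (G × ℕ) →₀ ℤ),
    (act n φ (wd u)).unop (g, a) = (g * ev φ u, a + path n φ g u) := by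
  induction u with
  | nil =>
    intro g a
    have : wd [] = 1 := rfl
    rw [this, map_one, ev_nil, mul_one]
    simp [path]
  | cons p u ih =>
    intro g a
    obtain ⟨j, b⟩ := p
    rw [wd_cons, act_mul]
    cases b with
    | true =>
      have h1 : (act n φ (wd [(j, true)])).unop (g, a) = (g * φ j, a + edge n g j) := by
        rw [wd_true, act, FreeGroup.lift_apply_of]; rfl
      rw [h1, ih, ev_cons]
      simp only [if_true, path, mul_assoc, add_assoc]
    | false =>
      have h1 : (act n φ (wd [(j, false)])).unop (g, a) =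
          (g * (φ j)⁻¹, a - edge n (g * (φ j)⁻¹) j) := by
        rw [wd_false, act, map_inv, FreeGroup.lift_apply_of]; rfl
      rw [h1, ih, ev_cons]
      simp only [Bool.false_eq_true, if_false, path, mul_assoc, sub_eq_add_neg, add_assoc]

lemma act_trans (x : FreeGroup ℕ) (g : G) (a b : (G × ℕ) →₀ ℤ) :
    (act n φ x).unop (g, a + b) =
      (((act n φ x).unop (g, a)).1, ((act n φ x).unop (g, a)).2 + b) := by
  have hx : wd x.toWord = x := FreeGroup.mk_toWord
  rw [← hx, act_wd, act_wd]
  simp only [Prod.mk.injEq, true_and]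
  abel

/-- The elements which act trivially on the group and modulo `B` on the chains. -/
def NS (B : AddSubgroup ((G × ℕ) →₀ ℤ)) : Subgroup (FreeGroup ℕ) where
  carrier := {y | ∀ g a, ((act n φ y).unop (g, a)).1 = g ∧ ((act n φ y).unop (g, a)).2 - a ∈ B}
  one_mem' := by
    intro g a
    rw [map_one]
    exact ⟨rfl, by
      have : ((1 : (Equiv.Perm (G × ((G × ℕ) →₀ ℤ)))ᵐᵒᵖ).unop (g, a)).2 - a = 0 := sub_self a
      rw [this]; exact B.zero_mem⟩
  mul_mem' := by
    intro x y hx hy g a
    rw [act_mul]
    obtain ⟨h1, h2⟩ := hx g a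
    obtain ⟨h3, h4⟩ := hy ((act n φ x).unop (g, a)).1 ((act n φ x).unop (g, a)).2
    rw [Prod.mk.eta] at h3 h4
    refine ⟨h3.trans h1, ?_⟩
    have := B.add_mem h4 h2
    rwa [sub_add_sub_cancel] at this
  inv_mem' := by
    intro x hx g a
    set p := (act n φ x⁻¹).unop (g, a) with hp
    have h0 : (act n φ x).unop p = (g, a) := act_inv n φ x (g, a)
    obtain ⟨h1, h2⟩ := hx p.1 p.2
    rw [Prod.mk.eta, h0] at h1 h2
    refine ⟨h1.symm, ?_⟩
    have := B.neg_mem h2
    rwa [neg_sub] at this

lemma NS_normal (B : AddSubgroup ((G × ℕ) →₀ ℤ)) : (NS n φ B).Normal := by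
  constructor
  intro y hy x g a
  rw [act_mul, act_mul]
  set p := (act n φ x).unop (g, a) with hp
  obtain ⟨h1, h2⟩ := hy p.1 p.2
  rw [Prod.mk.eta] at h1 h2
  set q := (act n φ y).unop p with hq
  have h3 : q = (p.1, p.2 + (q.2 - p.2)) := by
    apply Prod.ext
    · exact h1
    · simp
  have h4 : (act n φ x⁻¹).unop q = (g, a + (q.2 - p.2)) := by
    have e1 := act_trans n φ x⁻¹ p.1 p.2 (q.2 - p.2)
    rw [Prod.mk.eta] at e1
    have e2 : (act n φ x⁻¹).unop p = (g, a) := act_inv' n φ x (g, a)
    rw [e2] at e1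
    exact (congrArg (act n φ x⁻¹).unop h3).trans e1
  rw [h4]
  refine ⟨rfl, ?_⟩
  rw [add_sub_cancel_left]
  exact h2

end Act

/-- The boundary is additive. -/
lemma bdry_add (P : Pres) (c c' : (Grp P × ℕ) →₀ ℤ) : bdry P (c + c') = bdry P c + bdry P c' := by
  unfold bdry
  rw [Finsupp.sum_add_index']
  · intro x; simp
  · intro x a b; exact add_smul a b _

lemma bdry_single (P : Pres) (x : Grp P × ℕ) (a : ℤ) :
    bdry P (single x a) = a • path P.1 (gen P) x.1 (P.2.getD x.2 default).1 := by
  unfold bdry
  rw [Finsupp.sum_single_index]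
  simp

lemma bdry_zero (P : Pres) : bdry P 0 = 0 := by
  unfold bdry
  exact Finsupp.sum_zero_index

lemma bdry_neg (P : Pres) (c : (Grp P × ℕ) →₀ ℤ) : bdry P (-c) = -bdry P c := by
  have h := bdry_add P c (-c)
  rw [add_neg_cancel, bdry_zero] at h
  exact (neg_eq_of_add_eq_zero_right h.symm).symm

/-- The boundaries of the chains of the first `m` relators. -/
def BB (P : Pres) (m : ℕ) : AddSubgroup ((Grp P × ℕ) →₀ ℤ) where
  carrier := {b | ∃ c : (Grp P × ℕ) →₀ ℤ, (∀ x ∈ c.support, x.2 < m) ∧ bdry P c = b}
  zero_mem' := ⟨0, by simp, bdry_zero P⟩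
  add_mem' := by
    classical
    rintro _ _ ⟨c, hc, rfl⟩ ⟨c', hc', rfl⟩
    refine ⟨c + c', ?_, bdry_add P c c'⟩
    intro x hx
    rcases Finset.mem_union.1 (Finsupp.support_add hx) with h | h
    · exact hc x h
    · exact hc' x h
  neg_mem' := by
    rintro _ ⟨c, hc, rfl⟩
    refine ⟨-c, ?_, bdry_neg P c⟩
    intro x hx
    rw [Finsupp.support_neg] at hx
    exact hc x hx

lemma lift_gen (P : Pres) (u : Wd) : ev (gen P) u = val P u := (val_eq P u).symm

/-- **If `w` is trivial then there is a 2-cycle with odd label.** -/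
theorem oddSphere_ext (P : Pres) (hlab : ∀ r ∈ P.2, r.2 = false) (w : Wd) (h : val P w = 1) :
    OddSphere (ext P w) := by
  classical
  set Q := ext P w with hQ
  set m := (ext0 P).2.length with hm
  have hQ1 : Q.1 = P.1 + 2 := rfl
  have hQ2 : Q.2 = (ext0 P).2 ++ [(newRel P w, true)] := rfl
  have hlen : Q.2.length = m + 1 := by rw [hQ2, List.length_append]; rfl
  have hget : ∀ i (hi : i < m), Q.2.getD i default = (ext0 P).2[i] := by
    intro i hi
    rw [hQ2, List.getD_append _ _ _ _ hi, List.getD_eq_getElem _ _ hi]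
  have hgetm : Q.2.getD m default = (newRel P w, true) := by
    rw [hQ2, List.getD_append_right _ _ _ _ (le_of_eq hm.symm)]
    simp [hm]
  -- the relators of `ext0 P` are in `NS`
  have hrel : relSet (ext0 P) ⊆ NS Q.1 (gen Q) (BB Q m) := by
    rintro x (⟨q, hq, rfl⟩ | ⟨k, hk, rfl⟩)
    · intro g a
      rw [act_wd]
      obtain ⟨i, hi, hiq⟩ := List.mem_iff_getElem.1 hq
      have hqQ : q ∈ Q.2 := by
        rw [hQ2]; exact List.mem_append_left _ hq
      refine ⟨?_, ?_⟩
      · change g * ev (gen Q) q.1 = g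
        rw [lift_gen, val_rel Q q hqQ, mul_one]
      · rw [add_sub_cancel_left]
        refine ⟨single (g, i) 1, ?_, ?_⟩
        · intro x hx
          have := Finsupp.support_single_subset hx
          rw [Finset.mem_singleton] at this
          rw [this]
          exact hi
        · rw [bdry_single, one_smul, hget i hi, hiq]
    · intro g a
      rw [← wd_true k, act_wd]
      have h1 : (gen Q k) = 1 := of_eq_one Q k hk
      refine ⟨?_, ?_⟩
      · change g * ev (gen Q) [(k, true)] = g
        rw [ev_single, h1, mul_one]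
      · rw [add_sub_cancel_left]
        have h2 : path Q.1 (gen Q) g [(k, true)] = 0 := by
          have h3 : ¬ k < Q.1 := not_lt.2 hk
          simp only [path, edge]
          rw [if_neg h3, add_zero]
        rw [h2]
        exact (BB Q m).zero_mem
  have hle : Subgroup.normalClosure (relSet (ext0 P)) ≤ NS Q.1 (gen Q) (BB Q m) := by
    haveI := NS_normal Q.1 (gen Q) (BB Q m)
    exact Subgroup.normalClosure_le_normal hrel
  have hmem : wd (newRel P w) ∈ Subgroup.normalClosure (relSet (ext0 P)) := by
    have := val_newRel P w h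
    exact (QuotientGroup.eq_one_iff _).1 this
  obtain ⟨-, h2⟩ := hle hmem 1 0
  rw [act_wd, zero_add, sub_zero] at h2
  obtain ⟨c, hc, hc'⟩ := h2
  refine ⟨single ((1 : Grp Q), m) 1 + -c, ?_, ?_, ?_⟩
  · intro x hx
    rw [hlen]
    rcases Finset.mem_union.1 (Finsupp.support_add hx) with h3 | h3
    · have := Finsupp.support_single_subset h3
      rw [Finset.mem_singleton] at this
      rw [this]
      exact Nat.lt_succ_self m
    · rw [Finsupp.support_neg] at h3
      exact (hc x h3).trans (Nat.lt_succ_self m)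
  · rw [bdry_add, bdry_neg, bdry_single, one_smul, hgetm, hc']
    exact add_neg_cancel _
  · have h4 : labels Q c = 0 := by
      unfold labels
      rw [Finsupp.sum]
      apply Finset.sum_eq_zero
      intro x hx
      have h5 := hc x hx
      rw [hget x.2 h5]
      have h7 : ∀ q ∈ (ext0 P).2, q.2 = false := by
        intro q hq
        unfold ext0 at hq
        obtain ⟨q', hq', rfl⟩ := List.mem_map.1 hq
        exact hlab q' hq'
      have h6 : ((ext0 P).2[x.2]).2 = false := h7 _ (List.getElem_mem h5)
      rw [h6]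
      simp
    have h5 : labels Q (single ((1 : Grp Q), m) 1 + -c) = 1 := by
      have h6 : labels Q (single ((1 : Grp Q), m) 1 + -c) =
          labels Q (single ((1 : Grp Q), m) 1) + labels Q (-c) := by
        unfold labels
        rw [Finsupp.sum_add_index']
        · intro x; simp
        · intro x a b
          split_ifs
          · rfl
          · simp
      have h7 : labels Q (-c) = 0 := by
        have h8 : labels Q (c + -c) = labels Q c + labels Q (-c) := by
          unfold labels
          rw [Finsupp.sum_add_index']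
          · intro x; simp
          · intro x a b
            split_ifs
            · rfl
            · simp
        rw [add_neg_cancel, h4, zero_add] at h8
        rw [← h8]
        unfold labels
        exact Finsupp.sum_zero_index
      have h8 : labels Q (single ((1 : Grp Q), m) 1) = 1 := by
        unfold labels
        rw [Finsupp.sum_single_index]
        · rw [hgetm]; simp
        · simp
      rw [h6, h7, h8, add_zero]
    rw [h5]
    exact odd_one

end

end Pool.Agent.N212.UD
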