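import Pool.Agent.N212.UD.Grp
import Pool.Agent.Helper270.WPB

/-!
# A finite presentation with undecidable word problem

The Novikov–Boone theorem `Pool.Agent.Helper270.WP.word_problem`, in the notation of project UD.
-/

set_option autoImplicit false

namespace Pool.Agent.N212.UD

open Pool.Agent.N180.UD

/-- Renaming of the letters. -/
def ren (m : ℕ) (w : List (Fin m × Bool)) : Wd := w.map fun l => ((l.1 : ℕ), l.2)

lemma ev_ren {E : Type*} [Group E] (m : ℕ) (e : ℕ → E) (w : List (Fin m × Bool)) :
    ev e (ren m w) = FreeGroup.lift (fun i : Fin m => e i) (FreeGroup.mk w) := by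
  induction w with
  | nil =>
    simp [ren, ev_nil]
  | cons p a ih =>
    obtain ⟨j, b⟩ := p
    have h1 : ren m ((j, b) :: a) = ((j : ℕ), b) :: ren m a := rfl
    rw [h1, ev_cons, ih]
    have h2 : (FreeGroup.mk ((j, b) :: a) : FreeGroup (Fin m)) =
        FreeGroup.mk [(j, b)] * FreeGroup.mk a := by
      rw [FreeGroup.mul_mk]; rfl
    rw [h2, map_mul]
    congr 1
    simp only [FreeGroup.lift_mk, List.map_cons, List.map_nil, List.prod_cons, List.prod_nil,
      mul_one]
    cases b <;> simp

/-- The presentation. -/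
def mkPres (m : ℕ) (R : List (List (Fin m × Bool))) : Pres :=
  (m, R.map fun r => (ren m r, false))

lemma val_mkPres_iff (m : ℕ) (R : List (List (Fin m × Bool))) (w : List (Fin m × Bool)) :
    val (mkPres m R) (ren m w) = 1 ↔
      FreeGroup.mk w ∈ Subgroup.normalClosure {x | ∃ r ∈ R, x = FreeGroup.mk r} := by
  constructor
  · intro h
    let N := Subgroup.normalClosure {x : FreeGroup (Fin m) | ∃ r ∈ R, x = FreeGroup.mk r}
    let e : ℕ → FreeGroup (Fin m) ⧸ N := fun j =>
      if hj : j < m then QuotientGroup.mk (FreeGroup.of ⟨j, hj⟩) else 1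
    have h0 : FreeGroup.lift (fun i : Fin m => e i) = QuotientGroup.mk' N := by
      apply FreeGroup.ext_hom
      intro i
      rw [FreeGroup.lift_apply_of]
      simp [e]
    have h1 := ev_eq_one (mkPres m R) e (by
      intro r hr
      obtain ⟨q, hq, rfl⟩ := List.mem_map.1 hr
      change ev e (ren m q) = 1
      rw [ev_ren, h0]
      exact (QuotientGroup.eq_one_iff _).2 (Subgroup.subset_normalClosure ⟨q, hq, rfl⟩))
      (by
        intro j hj
        have : ¬ j < m := by
          change m ≤ j at hj
          omega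
        simp [e, this]) (ren m w) h
    rw [ev_ren, h0] at h1
    exact (QuotientGroup.eq_one_iff _).1 h1
  · intro h
    rw [val_eq, ev_ren]
    have h1 : Subgroup.normalClosure {x : FreeGroup (Fin m) | ∃ r ∈ R, x = FreeGroup.mk r} ≤
        (FreeGroup.lift fun i : Fin m => (PresentedGroup.of (i : ℕ) : Grp (mkPres m R))).ker := by
      apply Subgroup.normalClosure_le_normal
      rintro x ⟨r, hr, rfl⟩
      have h2 := val_rel (mkPres m R) (ren m r, false) (List.mem_map.2 ⟨r, hr, rfl⟩)
      rw [val_eq, ev_ren] at h2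
      exact h2
    exact h1 h

/-- **Novikov–Boone**: there is a finite presentation with undecidable word problem. -/
theorem exists_undecidable : ∃ P : Pres, (∀ r ∈ P.2, r.2 = false) ∧
    ∃ W : ℕ → Wd, Computable W ∧ ¬ ComputablePred fun n => val P (W n) = 1 := by
  classical
  obtain ⟨m, R, W, hW, h⟩ := Pool.Agent.Helper270.WP.word_problem
  let L : List (List (Fin m × Bool)) := R.toList.map FreeGroup.toWord
  refine ⟨mkPres m L, ?_, fun n => ren m (W n), ?_, ?_⟩
  · intro r hr
    obtain ⟨q, -, rfl⟩ := List.mem_map.1 hr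
    rfl
  · have h1 : Primrec (ren m) :=
      Primrec.list_map Primrec.id
        ((Primrec.pair (Primrec.fin_val.comp (Primrec.fst.comp Primrec.snd))
          (Primrec.snd.comp Primrec.snd)).to₂)
    exact h1.to_comp.comp hW
  · intro hc
    apply h
    refine hc.of_eq fun n => ?_
    rw [val_mkPres_iff]
    have h1 : {x : FreeGroup (Fin m) | ∃ r ∈ L, x = FreeGroup.mk r} = (R : Set (FreeGroup (Fin m))) := by
      ext x
      constructor
      · rintro ⟨r, hr, rfl⟩
        obtain ⟨q, hq, rfl⟩ := List.mem_map.1 hr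
        rw [FreeGroup.mk_toWord]
        exact Finset.mem_toList.1 hq
      · intro hx
        exact ⟨x.toWord, List.mem_map.2 ⟨x, Finset.mem_toList.2 hx, rfl⟩, FreeGroup.mk_toWord.symm⟩
    rw [h1]

end Pool.Agent.N212.UD
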